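import Pool.Agent.Helper4.MCP.GoalsB

/-!
# Project MCP (MP_d8224a_co): packet CRP
-/

set_option autoImplicit false

namespace Pool.Agent.Helper86.MCP

open Finset Pool.Agent.Helper4.MCP Pool.Agent.Helper26.MCE Pool.Agent.Helper87.MC

variable {s : ℕ}

theorem mem_blk (π : Fin s → Option (Fin s)) (l i : Fin s) : i ∈ blk π l ↔ π i = some l := by
  rw [blk, mem_filter]
  exact ⟨fun h => h.2, fun h => ⟨mem_univ _, h⟩⟩

/-- the weight -/
noncomputable def wt (π : Fin s → Option (Fin s)) : ℕ := ∏ l, ((blk π l).card - 1).factorial

theorem blk_upd_ne (π : Fin s → Option (Fin s)) {a l l' : Fin s} (ha : π a = none)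
    (h : l' ≠ l) : blk (Function.update π a (some l)) l' = blk π l' := by
  ext i
  rw [mem_blk, mem_blk]
  by_cases hi : i = a
  · subst hi
    rw [Function.update_self, ha]
    constructor
    · intro h1
      exact absurd (Option.some.inj h1).symm h
    · intro h1
      exact absurd h1 (by simp)
  · rw [Function.update_of_ne hi]

theorem blk_upd_self (π : Fin s → Option (Fin s)) {a l : Fin s} (ha : π a = none) :
    (blk (Function.update π a (some l)) l).card = (blk π l).card + 1 := by
  classical
  have h1 : blk (Function.update π a (some l)) l = insert a (blk π l) := by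
    ext i
    rw [mem_blk, mem_insert, mem_blk]
    by_cases hi : i = a
    · subst hi
      rw [Function.update_self]
      simp
    · rw [Function.update_of_ne hi]
      simp [hi]
  rw [h1, card_insert_of_notMem]
  rw [mem_blk, ha]
  simp

theorem wt_upd (π : Fin s → Option (Fin s)) {a l : Fin s} (ha : π a = none)
    (c : ℕ) (hc : (blk π l).card.factorial ≤ c * ((blk π l).card - 1).factorial) :
    wt (Function.update π a (some l)) ≤ c * wt π := by
  classical
  unfold wt
  rw [← Finset.mul_prod_erase univ _ (mem_univ l), ← Finset.mul_prod_erase univ
    (fun l => ((blk π l).card - 1).factorial) (mem_univ l), ← mul_assoc]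
  have h1 : ∏ l' ∈ univ.erase l, ((blk (Function.update π a (some l)) l').card - 1).factorial =
      ∏ l' ∈ univ.erase l, ((blk π l').card - 1).factorial := by
    refine Finset.prod_congr rfl fun l' hl' => ?_
    rw [blk_upd_ne π ha (ne_of_mem_erase hl')]
  rw [h1]
  refine Nat.mul_le_mul_right _ ?_
  rw [blk_upd_self π ha, Nat.add_sub_cancel]
  exact hc

theorem sum_blk (I : Finset (Fin s)) (π : Fin s → Option (Fin s)) (hπ : Can I π) :
    ∑ l, (blk π l).card ≤ I.card := by
  classical
  rw [← Finset.card_biUnion]
  · refine Finset.card_le_card fun i hi => ?_
    rw [mem_biUnion] at hi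
    obtain ⟨l, -, hl⟩ := hi
    exact (hπ i l ((mem_blk π l i).1 hl)).1
  · intro l _ l' _ hll
    show Disjoint (blk π l) (blk π l')
    rw [Finset.disjoint_left]
    intro i hi hi'
    rw [mem_blk] at hi hi'
    rw [hi] at hi'
    exact hll (Option.some.inj hi')

theorem goalCRP : G_CRP := by
  classical
  intro s I
  change ∑ π ∈ univ.filter (fun π : Fin s → Option (Fin s) => Can I π), wt π ≤ _
  induction I using Finset.induction_on_max with
  | empty =>
    have h1 : univ.filter (fun π : Fin s → Option (Fin s) => Can ∅ π) ⊆ {fun _ => none} := by
      intro π hπ
      rw [mem_singleton]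
      funext i
      cases h : π i with
      | none => rfl
      | some l => exact absurd ((mem_filter.1 hπ).2 i l h).1 (notMem_empty i)
    refine (Finset.sum_le_sum_of_subset h1).trans ?_
    rw [Finset.sum_singleton]
    have h2 : wt (fun _ : Fin s => (none : Option (Fin s))) = 1 := by
      unfold wt
      refine Finset.prod_eq_one fun l _ => ?_
      have h3 : blk (fun _ : Fin s => (none : Option (Fin s))) l = ∅ := by
        ext i
        rw [mem_blk]
        simp
      rw [h3]
      rfl
    rw [h2]
    simp
  | insert a I ha ih =>
    have haI : a ∉ I := fun h => lt_irrefl _ (ha a h)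
    rw [card_insert_of_notMem haI]
    have hmap : ∀ π ∈ univ.filter (fun π : Fin s → Option (Fin s) => Can (insert a I) π),
        Function.update π a none ∈ univ.filter (fun π : Fin s → Option (Fin s) => Can I π) := by
      intro π hπ
      refine mem_filter.2 ⟨mem_univ _, fun i l hil => ?_⟩
      have hia : i ≠ a := by
        rintro rfl
        rw [Function.update_self] at hil
        exact absurd hil (by simp)
      rw [Function.update_of_ne hia] at hil
      obtain ⟨h1, h2, h3⟩ := (mem_filter.1 hπ).2 i l hil
      have h4 : i ∈ I := (mem_insert.1 h1).resolve_left hia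
      have hla : l ≠ a := (h3.trans_lt (ha i h4)).ne
      exact ⟨h4, by rw [Function.update_of_ne hla]; exact h2, h3⟩
    rw [← Finset.sum_fiberwise_of_maps_to hmap]
    have hfib : ∀ π' ∈ univ.filter (fun π : Fin s → Option (Fin s) => Can I π),
        ∑ π ∈ (univ.filter (fun π : Fin s → Option (Fin s) => Can (insert a I) π)).filter
          (fun π => Function.update π a none = π'), wt π ≤ (I.card + 2) * wt π' := by
      intro π' hπ'
      have hc := (mem_filter.1 hπ').2
      have hπa : π' a = none := by
        cases h : π' a with
        | none => rfl
        | some l => exact absurd (hc a l h).1 haI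
      have hsub : (univ.filter (fun π : Fin s → Option (Fin s) => Can (insert a I) π)).filter
          (fun π => Function.update π a none = π') ⊆
          (univ.filter fun v => Can (insert a I) (Function.update π' a v)).image
            fun v => Function.update π' a v := by
        intro π hπ
        obtain ⟨h1, h2⟩ := mem_filter.1 hπ
        have h3 : Function.update π' a (π a) = π := by
          rw [← h2, Function.update_idem, Function.update_eq_self]
        rw [mem_image]
        refine ⟨π a, mem_filter.2 ⟨mem_univ _, ?_⟩, h3⟩
        rw [h3]
        exact (mem_filter.1 h1).2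
      refine (Finset.sum_le_sum_of_subset hsub).trans ?_
      rw [Finset.sum_image]
      swap
      · intro v _ v' _ hvv
        exact Function.update_injective π' a hvv
      rw [Finset.sum_filter, Fintype.sum_option]
      have h0 : (if Can (insert a I) (Function.update π' a none) then
          wt (Function.update π' a none) else 0) ≤ wt π' := by
        have : Function.update π' a none = π' := by
          rw [← hπa, Function.update_eq_self]
        rw [this]
        split_ifs
        · exact le_rfl
        · exact Nat.zero_le _
      have h1 : ∀ l : Fin s, (if Can (insert a I) (Function.update π' a (some l)) then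
          wt (Function.update π' a (some l)) else 0) ≤
          ((if l = a then 1 else 0) + (blk π' l).card) * wt π' := by
        intro l
        split_ifs with h2 h3
        · subst h3
          apply wt_upd π' hπa
          have h4 : (blk π' l).card = 0 := by
            rw [Finset.card_eq_zero]
            ext i
            rw [mem_blk]
            constructor
            · intro h5
              obtain ⟨h6, -, h7⟩ := hc i l h5
              exact absurd (ha i h6) (not_lt.2 h7)
            · intro h5
              exact absurd h5 (notMem_empty i)
          rw [h4]
          decide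
        · apply wt_upd π' hπa
          rw [zero_add]
          have h4 : Function.update π' a (some l) a = some l := Function.update_self _ _ _
          obtain ⟨-, h5, -⟩ := h2 a l h4
          rw [Function.update_of_ne h3] at h5
          have h6 : 0 < (blk π' l).card := card_pos.2 ⟨l, (mem_blk π' l l).2 h5⟩
          exact (Nat.mul_factorial_pred h6.ne').ge
        · exact Nat.zero_le _
        · exact Nat.zero_le _
      refine (Nat.add_le_add h0 (Finset.sum_le_sum fun l _ => h1 l)).trans ?_
      rw [← Finset.sum_mul, Finset.sum_add_distrib, Finset.sum_ite_eq' univ a, if_pos (mem_univ a)]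
      have h8 := sum_blk I π' hc
      calc wt π' + (1 + ∑ l, (blk π' l).card) * wt π' =
          (∑ l, (blk π' l).card + 2) * wt π' := by ring
        _ ≤ (I.card + 2) * wt π' := Nat.mul_le_mul_right _ (by omega)
    refine (Finset.sum_le_sum hfib).trans ?_
    rw [← Finset.mul_sum]
    refine (Nat.mul_le_mul_left _ ih).trans ?_
    rw [← Nat.factorial_succ]

end Pool.Agent.Helper86.MCP
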