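import Pool.Agent.Helper4.MCP.GoalsA

/-!
# Project MCP (MP_d8224a_co): packet PURE
-/

set_option autoImplicit false

namespace Pool.Agent.Helper86.MCP

open Finset Pool.Agent.Helper4.MCP Pool.Agent.Helper26.MCE Pool.Agent.Helper87.MC

variable {G : Type} [AddCommGroup G] [Fintype G]

open Classical in
/-- the number of `ω` with `x + ω v - ω v' ∈ D` -/
theorem count_pair {M : ℕ} (D : Finset G) (x : G) {v v' : Fin M} (hv : v' ≠ v) :
    ((univ : Finset (Fin M → G)).filter fun ω => x + ω v - ω v' ∈ D).card * Fintype.card G =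
      D.card * Fintype.card G ^ M := by
  -- the involution
  let σ : (Fin M → G) × G → (Fin M → G) × G := fun p => (Function.update p.1 v p.2, p.1 v)
  have hσ : ∀ p, σ (σ p) = p := by
    intro p
    refine Prod.ext ?_ ?_
    · show Function.update (Function.update p.1 v p.2) v (p.1 v) = p.1
      rw [Function.update_idem, Function.update_eq_self]
    · show Function.update p.1 v p.2 v = p.2
      rw [Function.update_self]
  have h1 : ∑ p : (Fin M → G) × G, (if x + p.1 v - p.1 v' ∈ D then 1 else 0) =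
      ∑ p : (Fin M → G) × G, (if x + p.2 - p.1 v' ∈ D then 1 else 0) := by
    refine Finset.sum_nbij' σ σ (fun _ _ => mem_univ _) (fun _ _ => mem_univ _)
      (fun p _ => hσ p) (fun p _ => hσ p) fun p _ => ?_
    have h2 : (σ p).1 v' = p.1 v' := by
      show Function.update p.1 v p.2 v' = p.1 v'
      rw [Function.update_of_ne hv]
    have h3 : (σ p).2 = p.1 v := rfl
    rw [h2, h3]
  rw [Fintype.sum_prod_type, Fintype.sum_prod_type] at h1
  have h4 : ∀ ω : Fin M → G, ∑ g : G, (if x + g - ω v' ∈ D then 1 else 0) = D.card := by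
    intro ω
    rw [← Finset.sum_filter, Finset.sum_const, smul_eq_mul, mul_one]
    refine Finset.card_nbij' (fun g => x + g - ω v') (fun d => d - x + ω v') ?_ ?_ ?_ ?_
    · intro g hg
      exact (mem_filter.1 hg).2
    · intro d hd
      rw [Finset.mem_coe, mem_filter]
      refine ⟨mem_univ _, ?_⟩
      have : x + (d - x + ω v') - ω v' = d := by abel
      rw [this]
      exact hd
    · intro g _
      show x + g - ω v' - x + ω v' = g
      abel
    · intro d _
      show x + (d - x + ω v') - ω v' = d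
      abel
  have h5 : ∑ ω : Fin M → G, ∑ g : G, (if x + ω v - ω v' ∈ D then 1 else 0) =
      ((univ : Finset (Fin M → G)).filter fun ω => x + ω v - ω v' ∈ D).card * Fintype.card G := by
    rw [Finset.card_filter, Finset.sum_mul]
    refine Finset.sum_congr rfl fun ω _ => ?_
    rw [Finset.sum_const, Finset.card_univ, smul_eq_mul, mul_comm]
  have h6 : ∑ ω : Fin M → G, ∑ g : G, (if x + g - ω v' ∈ D then 1 else 0) =
      D.card * Fintype.card G ^ M := by
    rw [Finset.sum_congr rfl fun ω _ => h4 ω, Finset.sum_const, Finset.card_univ, smul_eq_mul,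
      Fintype.card_fun, Fintype.card_fin, mul_comm]
  rw [← h5, ← h6]
  exact h1

open Classical in
theorem count_ex {M : ℕ} (c : ℕ) (n : ℕ) (R : Fin M → Fin M → (Fin M → G) → Prop)
    (hR : ∀ v v', v' ≠ v → ((univ : Finset (Fin M → G)).filter fun ω => R v v' ω).card * n ≤ c) :
    ((univ : Finset ((Fin M → G) × Fin M)).filter fun p => ∃ v', v' ≠ p.2 ∧ R p.2 v' p.1).card * n
      ≤ M ^ 2 * c := by
  have h1 : ((univ : Finset ((Fin M → G) × Fin M)).filter fun p => ∃ v', v' ≠ p.2 ∧ R p.2 v' p.1) ⊆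
      ((univ : Finset (Fin M × Fin M)).filter fun q => q.2 ≠ q.1).biUnion fun q =>
        ((univ : Finset (Fin M → G)).filter fun ω => R q.1 q.2 ω).image fun ω => (ω, q.1) := by
    intro p hp
    obtain ⟨v', hv', h⟩ := (mem_filter.1 hp).2
    rw [mem_biUnion]
    refine ⟨(p.2, v'), mem_filter.2 ⟨mem_univ _, hv'⟩, ?_⟩
    rw [mem_image]
    exact ⟨p.1, mem_filter.2 ⟨mem_univ _, h⟩, rfl⟩
  calc ((univ : Finset ((Fin M → G) × Fin M)).filter fun p => ∃ v', v' ≠ p.2 ∧ R p.2 v' p.1).card * n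
      ≤ (∑ q ∈ (univ : Finset (Fin M × Fin M)).filter fun q => q.2 ≠ q.1,
          ((univ : Finset (Fin M → G)).filter fun ω => R q.1 q.2 ω).card) * n := by
        refine Nat.mul_le_mul_right _ ((Finset.card_le_card h1).trans (card_biUnion_le.trans ?_))
        exact Finset.sum_le_sum fun q _ => card_image_le
    _ ≤ ∑ q : Fin M × Fin M, c := by
        rw [Finset.sum_mul]
        refine (Finset.sum_le_sum fun q hq => hR q.1 q.2 (mem_filter.1 hq).2).trans ?_
        exact Finset.sum_le_sum_of_subset (filter_subset _ _)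
    _ = M ^ 2 * c := by
        rw [Finset.sum_const, Finset.card_univ, Fintype.card_prod, Fintype.card_fin, smul_eq_mul]
        ring

open Classical in
/-- the mean over a fibred set -/
theorem mean_eq {P : Type} (S : Finset P) (w : P → G) (φ : G → ℝ) (N : ℝ) :
    ∑ x : G, ((S.filter fun p => w p = x).card : ℝ) / N * φ x = (∑ p ∈ S, φ (w p)) / N := by
  have h1 : ∑ p ∈ S, φ (w p) = ∑ x : G, ∑ p ∈ S.filter (fun p => w p = x), φ (w p) :=
    (Finset.sum_fiberwise S w fun p => φ (w p)).symm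
  rw [h1, Finset.sum_div]
  refine Finset.sum_congr rfl fun x _ => ?_
  have h2 : ∑ p ∈ S.filter (fun p => w p = x), φ (w p) =
      ((S.filter fun p => w p = x).card : ℝ) * φ x := by
    rw [Finset.sum_congr rfl fun p hp => by rw [(mem_filter.1 hp).2], Finset.sum_const,
      nsmul_eq_mul]
  rw [h2]
  ring

theorem count_pair' {M : ℕ} (D : Finset G) (x : G) {v v' : Fin M} (hv : v' ≠ v)
    (T : Finset (Fin M → G)) (hT : ∀ ω ∈ T, x + ω v - ω v' ∈ D) :
    T.card * Fintype.card G ≤ D.card * Fintype.card G ^ M := by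
  classical
  rw [← count_pair D x hv]
  exact Nat.mul_le_mul_right _ (Finset.card_le_card fun ω hω => mem_filter.2 ⟨mem_univ _, hT ω hω⟩)

theorem count_ex' {M : ℕ} (c : ℕ) (n : ℕ) (R : Fin M → Fin M → (Fin M → G) → Prop)
    (hR : ∀ v v', v' ≠ v → ∀ T : Finset (Fin M → G), (∀ ω ∈ T, R v v' ω) → T.card * n ≤ c)
    (T : Finset ((Fin M → G) × Fin M)) (hT : ∀ p ∈ T, ∃ v', v' ≠ p.2 ∧ R p.2 v' p.1) :
    T.card * n ≤ M ^ 2 * c := by
  classical
  refine le_trans ?_ (count_ex c n R fun v v' hv => hR v v' hv _ fun ω hω => (mem_filter.1 hω).2)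
  exact Nat.mul_le_mul_right _ (Finset.card_le_card fun p hp => mem_filter.2 ⟨mem_univ _, hT p hp⟩)

theorem goalPURE : G_PURE := by
  classical
  intro G _ _ D J Ks M Q U Λ _ e W m hQ hS hm
  by_contra hcon
  push Not at hcon
  set n : ℕ := Fintype.card G with hn
  have hn0 : 0 < n := Fintype.card_pos
  have hQ1 : (2 : ℝ) ≤ Q := by exact_mod_cast hQ
  have hQ0 : (0 : ℝ) < Q := by linarith
  set Imp : (Fin M → G) → Finset (Fin M) := fun ω => (U ω).filter fun v => ∃ g, Bad D ω (U ω) g ∧
      1 / (Q : ℝ) ^ 16 ≤ imp D e W m (g - ω v) with hImp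
  set S : Finset ((Fin M → G) × Fin M) := univ.filter fun p => p.2 ∈ Imp p.1 with hSd
  have hcard : (∑ ω : Fin M → G, ((Imp ω).card : ℝ)) = S.card := by
    have h1 : S.card = ∑ ω : Fin M → G, (Imp ω).card := by
      rw [hSd, Finset.card_filter, Fintype.sum_prod_type]
      refine Finset.sum_congr rfl fun ω _ => ?_
      rw [← Finset.card_filter]
      congr 1
      ext v
      simp
    rw [h1]
    push_cast
    rfl
  have hcon' : (Q : ℝ) ^ 160 * (M : ℝ) ^ 2 * D.card * (n : ℝ) ^ M < S.card * n := by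
    rw [← hcard]
    exact hcon
  set N : ℝ := (S.card : ℝ) with hN
  have hN0 : 0 < N := by
    have h1 : (0 : ℝ) ≤ (Q : ℝ) ^ 160 * (M : ℝ) ^ 2 * D.card * (n : ℝ) ^ M := by positivity
    have h2 : (0 : ℝ) < N * n := lt_of_le_of_lt h1 hcon'
    have h3 : (0 : ℝ) < n := by exact_mod_cast hn0
    exact pos_of_mul_pos_left h2 h3.le
  have hg : ∀ p : (Fin M → G) × Fin M, ∃ g, p ∈ S → Bad D p.1 (U p.1) g ∧
      1 / (Q : ℝ) ^ 16 ≤ imp D e W m (g - p.1 p.2) := by
    intro p
    by_cases hp : p ∈ S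
    · obtain ⟨g, hg⟩ := (mem_filter.1 (mem_filter.1 hp).2).2
      exact ⟨g, fun _ => hg⟩
    · exact ⟨0, fun h => absurd h hp⟩
  choose g hg using hg
  set w : (Fin M → G) × Fin M → G := fun p => g p - p.1 p.2 with hw
  set μ : G → ℝ := fun x => ((S.filter fun p => w p = x).card : ℝ) / N with hμ
  have hmean : ∀ φ : G → ℝ, ∑ x, μ x * φ x = (∑ p ∈ S, φ (w p)) / N := fun φ =>
    mean_eq S w φ N
  have hmeanP : ∀ R : G → Prop, ∃ T : Finset ((Fin M → G) × Fin M), (∀ p ∈ T, p ∈ S ∧ R (w p)) ∧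
      ∀ inst : DecidablePred R, (∑ x : G, @ite ℝ (R x) (inst x) (μ x) 0) = (T.card : ℝ) / N := by
    intro R
    refine ⟨S.filter fun p => R (w p), fun p hp => mem_filter.1 hp, fun inst => ?_⟩
    have h1 := hmean fun x => if R x then 1 else 0
    have h2 : (∑ x : G, @ite ℝ (R x) (inst x) (μ x) 0) = ∑ x, μ x * (if R x then 1 else 0) := by
      refine Finset.sum_congr rfl fun x _ => ?_
      split_ifs <;> ring
    rw [h2, h1, ← Finset.sum_filter, Finset.sum_const, nsmul_eq_mul, mul_one]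
    congr!
  have hbound : ∀ T : Finset ((Fin M → G) × Fin M), T.card * n ≤ M ^ 2 * (D.card * n ^ M) →
      (T.card : ℝ) / N ≤ 1 / (Q : ℝ) ^ 160 := by
    intro T hT
    have h1 : (T.card : ℝ) * n ≤ (M : ℝ) ^ 2 * (D.card * (n : ℝ) ^ M) := by exact_mod_cast hT
    rw [div_le_div_iff₀ hN0 (by positivity), one_mul]
    have h2 : (T.card : ℝ) * (Q : ℝ) ^ 160 * n ≤ N * n := by
      calc (T.card : ℝ) * (Q : ℝ) ^ 160 * n = (Q : ℝ) ^ 160 * (T.card * n) := by ring
        _ ≤ (Q : ℝ) ^ 160 * ((M : ℝ) ^ 2 * (D.card * (n : ℝ) ^ M)) :=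
            mul_le_mul_of_nonneg_left h1 (by positivity)
        _ = (Q : ℝ) ^ 160 * (M : ℝ) ^ 2 * D.card * (n : ℝ) ^ M := by ring
        _ ≤ N * n := hcon'.le
    exact le_of_mul_le_mul_right h2 (by exact_mod_cast hn0)
  have hlaw : Law D J (1 / (Q : ℝ) ^ 160) μ := by
    refine ⟨fun x => by positivity, ?_, ?_, ?_⟩
    · have h1 := hmean fun _ => 1
      simp only [mul_one, Finset.sum_const, nsmul_eq_mul] at h1
      rw [h1]
      exact div_self hN0.ne'
    · intro z hz
      rw [TT]
      obtain ⟨T, hTS, hT⟩ := hmeanP fun x => z - x ∈ D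
      refine (le_of_eq (hT _)).trans (hbound T ?_)
      refine count_ex' _ n (fun v v' ω => z + ω v - ω v' ∈ D)
          (fun v v' hv => count_pair' D z hv) _ ?_
      intro p hp
      obtain ⟨hpS, hp2⟩ := hTS p hp
      obtain ⟨hb, -⟩ := hg p hpS
      obtain ⟨v', hv', h⟩ := hb _ hp2
      have h3 : g p + (z - w p) - p.1 v' = z + p.1 p.2 - p.1 v' := by
        show g p + (z - (g p - p.1 p.2)) - p.1 v' = _
        abel
      rw [h3] at h
      refine ⟨v', ?_, h⟩
      rintro rfl
      rw [add_sub_cancel_right] at h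
      exact hz h
    · intro x hx
      obtain ⟨T, hTS, hT⟩ := hmeanP fun y => x + y ∈ D ∧ x + y ∉ J
      refine (le_of_eq (hT _)).trans (hbound T ?_)
      refine count_ex' _ n (fun v v' ω => x + ω v' - ω v ∈ D)
          (fun v v' hv => count_pair' D x hv.symm) _ ?_
      intro p hp
      obtain ⟨hpS, hp2, hp3⟩ := hTS p hp
      obtain ⟨hb, -⟩ := hg p hpS
      obtain ⟨K, hK, hfull⟩ := hS.out _ hp2 hp3
      obtain ⟨v', hv', h⟩ := hS.det p.1 K hK (U p.1) (Finset.Subset.refl _) (g p) hb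
      have hf := (mem_filter.1 hfull).2
      refine ⟨v', ?_, ?_⟩
      · rintro rfl
        apply hS.inn x hx K hK
        have hwK : -w p ∈ K := by
          have : -w p = p.1 p.2 - g p := by
            show -(g p - p.1 p.2) = _
            abel
          rw [this]
          exact h
        refine mem_filter.2 ⟨?_, fun a ha => ?_⟩
        · have h4 := hf _ hwK
          rwa [add_neg_cancel_right] at h4
        · have h4 := hf _ (K.add_mem hwK ha)
          have h5 : x + w p + (-w p + a) = x + a := by abel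
          rwa [h5] at h4
      · have h4 := hf _ h
        have h5 : x + w p + (p.1 v' - g p) = x + p.1 v' - p.1 p.2 := by
          show x + (g p - p.1 p.2) + (p.1 v' - g p) = _
          abel
        rwa [h5] at h4
  have h1 := hm μ hlaw
  rw [hmean] at h1
  have h2 : N * (1 / (Q : ℝ) ^ 16) ≤ ∑ p ∈ S, imp D e W m (w p) := by
    rw [hN, ← nsmul_eq_mul]
    exact Finset.card_nsmul_le_sum _ _ _ fun p hp => (hg p hp).2
  have h3 : 1 / (Q : ℝ) ^ 16 ≤ (∑ p ∈ S, imp D e W m (w p)) / N := by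
    rw [le_div_iff₀ hN0, mul_comm]
    exact h2
  have h4 : 1 / (Q : ℝ) ^ 17 < 1 / (Q : ℝ) ^ 16 := by
    apply one_div_lt_one_div_of_lt (by positivity)
    exact pow_lt_pow_right₀ (by linarith) (by norm_num)
  linarith

end Pool.Agent.Helper86.MCP
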